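import Pool.Agent.Helper96.KS.Parts

/-!
# KS, part FB: the expected number of half-edges whose ball is not a tree
-/

set_option autoImplicit false

open Finset

namespace KS.FB_helper74

open scoped Classical
open Inst

variable {K : ℕ} {I : Inst K}

lemma even_closed {η : I.H → I.H} (hη : η ∈ I.Om) (S : Finset I.H) (hS : ∀ h ∈ S, η h ∈ S) :
    Even S.card := by
  obtain ⟨h1, h2, -⟩ := (Finset.mem_filter.1 hη).2
  have h3 : ∑ _x ∈ S, (1 : ZMod 2) = 0 := by
    refine Finset.sum_involution (fun a _ => η a) ?_ ?_ ?_ ?_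
    · intro a _
      decide
    · intro a _ _
      exact h2 a
    · intro a ha
      exact hS a ha
    · intro a _
      exact h1 a
  rw [Finset.sum_const, nsmul_eq_mul, mul_one] at h3
  exact (ZMod.natCast_eq_zero_iff_even).1 h3

lemma card_Vs {S : Finset I.H} {x : I.H} (hx : x ∈ S)
    (h : ∀ h ∈ S, h.1 ≠ x.1 → ∃ h' ∈ S, h' ≠ h ∧ h'.1 = h.1) :
    2 * (Vs S).card ≤ S.card + 1 := by
  have hx' : x.1 ∈ Vs S := Finset.mem_image_of_mem _ hx
  have e1 : S.card = ∑ v ∈ Vs S, (S.filter fun h => h.1 = v).card := by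
    unfold Vs
    exact Finset.card_eq_sum_card_image (fun h : I.H => h.1) S
  rw [← Finset.add_sum_erase _ _ hx'] at e1
  have e2 : 1 ≤ (S.filter fun h => h.1 = x.1).card :=
    Finset.card_pos.2 ⟨x, Finset.mem_filter.2 ⟨hx, rfl⟩⟩
  have e3 : ((Vs S).erase x.1).card * 2 ≤
      ∑ v ∈ (Vs S).erase x.1, (S.filter fun h => h.1 = v).card := by
    rw [← smul_eq_mul]
    refine Finset.card_nsmul_le_sum _ _ _ fun v hv => ?_
    obtain ⟨hv1, hv2⟩ := Finset.mem_erase.1 hv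
    obtain ⟨h0, h0S, rfl⟩ := Finset.mem_image.1 hv2
    obtain ⟨h', h'S, h'ne, h'e⟩ := h h0 h0S hv1
    exact Finset.one_lt_card.2 ⟨h0, Finset.mem_filter.2 ⟨h0S, rfl⟩, h',
      Finset.mem_filter.2 ⟨h'S, h'e⟩, fun e => h'ne e.symm⟩
  rw [Finset.card_erase_of_mem hx'] at e3
  have e4 : 0 < (Vs S).card := Finset.card_pos.2 ⟨_, hx'⟩
  omega

/-- the witnesses of size `2 b` -/
noncomputable def Fam (η : I.H → I.H) (b : ℕ) : Finset (Finset I.H) :=
  univ.filter fun S : Finset I.H => (∀ h ∈ S, η h ∈ S) ∧ S.card = 2 * b ∧ (Vs S).card ≤ b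

lemma bad_card {Δ : ℕ} (hI : I.Valid Δ) (h2 : S_F2a) {η : I.H → I.H} (hη : η ∈ I.Om) (r : ℕ) :
    (univ.filter fun x : I.H => Bad r η x).card ≤
      ∑ b ∈ range (2 * (r + 1) + 1), (Fam η b).card * (2 * b) := by
  have hsub : (univ.filter fun x : I.H => Bad r η x) ⊆
      (range (2 * (r + 1) + 1)).biUnion fun b => (Fam η b).biUnion id := by
    intro x hx
    obtain ⟨S, hxS, hcl, hcard, hV⟩ := h2 K Δ I hI η hη r x (Finset.mem_filter.1 hx).2
    obtain ⟨b, hb⟩ := even_closed hη S hcl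
    have hc := card_Vs hxS hV
    refine Finset.mem_biUnion.2 ⟨b, Finset.mem_range.2 (by omega), Finset.mem_biUnion.2
      ⟨S, Finset.mem_filter.2 ⟨Finset.mem_univ _, hcl, by omega, by omega⟩, hxS⟩⟩
  refine (Finset.card_le_card hsub).trans (Finset.card_biUnion_le.trans ?_)
  refine Finset.sum_le_sum fun b _ => Finset.card_biUnion_le.trans ?_
  refine le_of_eq ?_
  rw [Finset.sum_congr rfl fun S hS => ((Finset.mem_filter.1 hS).2.2.1 : (id S).card = 2 * b),
    Finset.sum_const, smul_eq_mul]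

theorem main (h0 : S_F0) (h2 : S_F2a) : S_FB := by
  intro K Δ I hI r L hL hN
  have hK := hI.hK
  have hNpos : (0 : ℝ) < I.N := by exact_mod_cast hI.npos
  have hΔ : 1 ≤ Δ := by
    have hne : Nonempty I.H := Fintype.card_pos_iff.1 hI.npos
    obtain ⟨x⟩ := hne
    have a1 := hI.d3 x.1
    have a2 := hI.dΔ x.1
    omega
  have hKR : (1 : ℝ) ≤ K := by exact_mod_cast (by omega : 1 ≤ K)
  have hΔR : (1 : ℝ) ≤ Δ := by exact_mod_cast hΔ
  have hL0 : (0 : ℝ) ≤ L := Nat.cast_nonneg L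
  set Q : ℝ := 3 * K * Δ * (L + 1) with hQ
  have hKΔ : (1 : ℝ) ≤ K * Δ := by nlinarith
  have hQ1 : 1 ≤ Q := by
    rw [hQ]
    nlinarith
  have step : ∀ b ∈ range (2 * (r + 1) + 1),
      ∑ η ∈ I.Om, (((Fam η b).card * (2 * b) : ℕ) : ℝ) ≤ I.Om.card * ((L + 1) * Q ^ L) := by
    intro b hb
    have hb' : b ≤ 2 * (r + 1) := by have := Finset.mem_range.1 hb; omega
    have hbL : 2 * b ≤ L := by omega
    have h4 : 4 * K * (2 * b + 2) ≤ I.N := by
      refine le_trans ?_ hN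
      exact Nat.mul_le_mul_left _ (by omega)
    have h5 := h0 K Δ I hI b b h4
    have h6 : (∑ η ∈ I.Om, (((Fam η b).card * (2 * b) : ℕ) : ℝ)) =
        (∑ η ∈ I.Om, ((Fam η b).card : ℝ)) * (2 * b) := by
      rw [Finset.sum_mul]
      refine Finset.sum_congr rfl fun η _ => ?_
      push_cast
      ring
    rw [h6]
    have h7 : (I.N : ℝ) ^ b * ((b : ℝ) * Δ) ^ (2 * b) * (3 * K / I.N) ^ b ≤ Q ^ L := by
      have e1 : (I.N : ℝ) ^ b * ((b : ℝ) * Δ) ^ (2 * b) * (3 * K / I.N) ^ b =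
          ((b : ℝ) * Δ) ^ (2 * b) * (3 * K) ^ b := by
        rw [div_pow]
        field_simp
      rw [e1]
      have e2 : (3 * (K : ℝ)) ^ b ≤ (3 * (K : ℝ)) ^ (2 * b) :=
        pow_le_pow_right₀ (by linarith) (by omega)
      have hbLR : (b : ℝ) ≤ L + 1 := by
        have : (b : ℝ) ≤ L := by exact_mod_cast (by omega : b ≤ L)
        linarith
      have e3 : ((b : ℝ) * Δ) ^ (2 * b) ≤ (((L : ℝ) + 1) * Δ) ^ (2 * b) :=
        pow_le_pow_left₀ (by positivity) (mul_le_mul_of_nonneg_right hbLR (by positivity)) _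
      calc ((b : ℝ) * Δ) ^ (2 * b) * (3 * K) ^ b
          ≤ (((L : ℝ) + 1) * Δ) ^ (2 * b) * (3 * (K : ℝ)) ^ (2 * b) :=
            mul_le_mul e3 e2 (by positivity) (by positivity)
        _ = Q ^ (2 * b) := by rw [← mul_pow, hQ]; congr 1; ring
        _ ≤ Q ^ L := pow_le_pow_right₀ hQ1 hbL
    have h8 : (2 * (b : ℝ)) ≤ L + 1 := by
      have : ((2 * b : ℕ) : ℝ) ≤ L := by exact_mod_cast hbL
      push_cast at this
      linarith
    have h9 : (∑ η ∈ I.Om, ((Fam η b).card : ℝ)) ≤ I.Om.card * Q ^ L :=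
      h5.trans (mul_le_mul_of_nonneg_left h7 (Nat.cast_nonneg _))
    calc (∑ η ∈ I.Om, ((Fam η b).card : ℝ)) * (2 * b)
        ≤ (I.Om.card * Q ^ L) * (L + 1) :=
          mul_le_mul h9 h8 (by positivity) (by positivity)
      _ = I.Om.card * ((L + 1) * Q ^ L) := by ring
  calc ∑ η ∈ I.Om, ((univ.filter fun x : I.H => Bad r η x).card : ℝ)
      ≤ ∑ η ∈ I.Om, ∑ b ∈ range (2 * (r + 1) + 1), (((Fam η b).card * (2 * b) : ℕ) : ℝ) := by
        refine Finset.sum_le_sum fun η hη => ?_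
        rw [← Nat.cast_sum]
        exact_mod_cast bad_card hI h2 hη r
    _ = ∑ b ∈ range (2 * (r + 1) + 1), ∑ η ∈ I.Om, (((Fam η b).card * (2 * b) : ℕ) : ℝ) :=
        Finset.sum_comm
    _ ≤ ∑ b ∈ range (2 * (r + 1) + 1), (I.Om.card * ((L + 1) * Q ^ L) : ℝ) :=
        Finset.sum_le_sum step
    _ = ((2 * (r + 1) + 1 : ℕ) : ℝ) * (I.Om.card * ((L + 1) * Q ^ L)) := by
        rw [Finset.sum_const, Finset.card_range, nsmul_eq_mul]
    _ ≤ ((L : ℝ) + 1) * (I.Om.card * ((L + 1) * Q ^ L)) := by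
        refine mul_le_mul_of_nonneg_right ?_ (by positivity)
        have : 2 * (r + 1) + 1 ≤ L + 1 := by omega
        exact_mod_cast this
    _ = I.Om.card * (((L : ℝ) + 1) ^ 2 * Q ^ L) := by ring

end KS.FB_helper74
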